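import Mathlib

namespace Pool.Agent.Results.MP_0d307c_co.ThinIsFlagTransitive

variable {G : Type*} [Group G] {r : ℕ}

/-- `(G, {ρ 0, …, ρ (r-1)})` is a C-group of rank `r`: the `ρ i` are distinct involutions which
generate `G` and satisfy the intersection property. -/
structure IsCGroup (ρ : Fin r → G) : Prop where
  injective : Function.Injective ρ
  ne_one : ∀ i, ρ i ≠ 1
  mul_self : ∀ i, ρ i * ρ i = 1
  generates : Subgroup.closure (Set.range ρ) = ⊤
  inter : ∀ I J : Set (Fin r), Subgroup.closure (ρ '' I) ⊓ Subgroup.closure (ρ '' J) =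
    Subgroup.closure (ρ '' (I ∩ J))

/-- The subgroup `G_i` generated by the `ρ j` with `j ≠ i`. -/
def par (ρ : Fin r → G) (i : Fin r) : Subgroup G := Subgroup.closure (ρ '' {j | j ≠ i})

/-- The right coset `G_i g`. -/
def rcoset (ρ : Fin r → G) (i : Fin r) (g : G) : Set G := {x | ∃ h ∈ par ρ i, x = h * g}

/-- The elements of the coset geometry: an element of type `i` is a right coset of `G_i`. -/
@[ext] structure Elt (ρ : Fin r → G) where
  /-- the type -/
  ty : Fin r
  /-- the coset -/
  coset : Set G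
  isCoset : ∃ g, coset = rcoset ρ ty g

/-- Incidence: the cosets intersect. -/
def Inc {ρ : Fin r → G} (e f : Elt ρ) : Prop := (e.coset ∩ f.coset).Nonempty

/-- A flag is a set of pairwise incident elements. -/
def IsFlag {ρ : Fin r → G} (F : Set (Elt ρ)) : Prop := ∀ e ∈ F, ∀ f ∈ F, e ≠ f → Inc e f

/-- A chamber is a flag containing exactly one element of each type. -/
def IsChamber {ρ : Fin r → G} (C : Set (Elt ρ)) : Prop := IsFlag C ∧ ∀ i, ∃! e, e ∈ C ∧ e.ty = i

/-- The elements of the residue of `F`: the elements not in `F`, of types not met by `F`, incident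
with every element of `F`. -/
def residue {ρ : Fin r → G} (F : Set (Elt ρ)) : Set (Elt ρ) :=
  {e | e ∉ F ∧ (∀ f ∈ F, f.ty ≠ e.ty) ∧ ∀ f ∈ F, Inc e f}

/-- The incidence graph on a set of elements. -/
def incGraph {ρ : Fin r → G} (R : Set (Elt ρ)) : SimpleGraph R where
  Adj e f := e ≠ f ∧ Inc e.1 f.1
  symm := ⟨fun e f h => ⟨h.1.symm, by
    have := h.2
    unfold Inc at this ⊢
    rwa [Set.inter_comm]⟩⟩
  loopless := ⟨fun e h => h.1 rfl⟩

/-- Every flag with `r - 1` elements lies in exactly two chambers. -/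
def Thin (ρ : Fin r → G) : Prop :=
  ∀ F : Set (Elt ρ), IsFlag F → F.ncard + 1 = r → {C | IsChamber C ∧ F ⊆ C}.ncard = 2

/-- The incidence graph of every residue of rank at least `2` is connected (in particular
nonempty) and every residue of rank `1` is nonempty. -/
def ResiduallyConnected (ρ : Fin r → G) : Prop :=
  (∀ F : Set (Elt ρ), IsFlag F → F.ncard + 2 ≤ r → (incGraph (residue F)).Connected) ∧
  ∀ F : Set (Elt ρ), IsFlag F → F.ncard + 1 = r → (residue F).Nonempty

/-- A weaker variant in which the empty graph is regarded as connected. -/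
def WeaklyResiduallyConnected (ρ : Fin r → G) : Prop :=
  (∀ F : Set (Elt ρ), IsFlag F → F.ncard + 2 ≤ r → (incGraph (residue F)).Preconnected) ∧
  ∀ F : Set (Elt ρ), IsFlag F → F.ncard + 1 = r → (residue F).Nonempty

/-- Right multiplication by `g` on elements. -/
def act {ρ : Fin r → G} (g : G) (e : Elt ρ) : Elt ρ where
  ty := e.ty
  coset := (fun x => x * g) '' e.coset
  isCoset := by
    obtain ⟨a, ha⟩ := e.isCoset
    refine ⟨a * g, ?_⟩
    rw [ha]
    ext x
    constructor
    · rintro ⟨_, ⟨h, hh, rfl⟩, rfl⟩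
      exact ⟨h, hh, mul_assoc _ _ _⟩
    · rintro ⟨h, hh, rfl⟩
      exact ⟨h * a, ⟨h, hh, rfl⟩, mul_assoc _ _ _⟩

/-- `G`, acting by right multiplication, is transitive on the chambers. -/
def FlagTransitive (ρ : Fin r → G) : Prop :=
  ∀ C D : Set (Elt ρ), IsChamber C → IsChamber D → ∃ g : G, act g '' C = D

/-! ### basic facts -/

variable {ρ : Fin r → G}

lemma mem_rcoset_self (i : Fin r) (g : G) : g ∈ rcoset ρ i g :=
  ⟨1, Subgroup.one_mem _, (one_mul g).symm⟩

lemma rcoset_eq {i : Fin r} {g x : G} (h : x ∈ rcoset ρ i g) : rcoset ρ i g = rcoset ρ i x := by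
  obtain ⟨a, ha, rfl⟩ := h
  ext y
  constructor
  · rintro ⟨b, hb, rfl⟩
    exact ⟨b * a⁻¹, Subgroup.mul_mem _ hb (Subgroup.inv_mem _ ha), by group⟩
  · rintro ⟨b, hb, rfl⟩
    exact ⟨b * a, Subgroup.mul_mem _ hb ha, by group⟩

/-- the element `G_i g` -/
def el (ρ : Fin r → G) (i : Fin r) (g : G) : Elt ρ := ⟨i, rcoset ρ i g, g, rfl⟩

lemma eq_el (e : Elt ρ) {x : G} (hx : x ∈ e.coset) : e = el ρ e.ty x := by
  obtain ⟨g, hg⟩ := e.isCoset
  have h1 : e.coset = rcoset ρ e.ty x := by
    rw [hg] at hx ⊢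
    exact rcoset_eq hx
  cases e
  simp only [el] at *
  subst h1
  rfl

lemma Inc.symm {e f : Elt ρ} (h : Inc e f) : Inc f e := by
  unfold Inc at h ⊢
  rwa [Set.inter_comm]

lemma inc_eq {e f : Elt ρ} (h : Inc e f) (ht : e.ty = f.ty) : e = f := by
  obtain ⟨x, hx, hy⟩ := h
  rw [eq_el e hx, eq_el f hy, ht]

lemma flag_inj {F : Set (Elt ρ)} (hF : IsFlag F) {e f : Elt ρ} (he : e ∈ F) (hf : f ∈ F)
    (ht : e.ty = f.ty) : e = f := by
  by_contra hne
  exact hne (inc_eq (hF e he f hf hne) ht)

lemma flag_injOn {F : Set (Elt ρ)} (hF : IsFlag F) : Set.InjOn Elt.ty F :=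
  fun _ he _ hf h => flag_inj hF he hf h

lemma flag_finite {F : Set (Elt ρ)} (hF : IsFlag F) : F.Finite :=
  Set.Finite.of_finite_image (Set.toFinite _) (flag_injOn hF)

lemma flag_ncard_le {F : Set (Elt ρ)} (hF : IsFlag F) : F.ncard ≤ r := by
  rw [← Set.InjOn.ncard_image (flag_injOn hF)]
  calc _ ≤ (Set.univ : Set (Fin r)).ncard := Set.ncard_le_ncard (Set.subset_univ _)
    _ = r := by rw [Set.ncard_univ, Nat.card_eq_fintype_card, Fintype.card_fin]

lemma chamber_ncard {C : Set (Elt ρ)} (hC : IsChamber C) : C.ncard = r := by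
  rw [← Set.InjOn.ncard_image (flag_injOn hC.1)]
  have : Elt.ty '' C = Set.univ := by
    rw [Set.eq_univ_iff_forall]
    intro i
    obtain ⟨e, he, _⟩ := hC.2 i
    exact ⟨e, he.1, he.2⟩
  rw [this, Set.ncard_univ, Nat.card_eq_fintype_card, Fintype.card_fin]

lemma chamber_of_ncard {F : Set (Elt ρ)} (hF : IsFlag F) (h : F.ncard = r) : IsChamber F := by
  refine ⟨hF, fun i => ?_⟩
  have h1 : Elt.ty '' F = Set.univ := by
    apply Set.eq_of_subset_of_ncard_le (Set.subset_univ _)
    rw [Set.InjOn.ncard_image (flag_injOn hF), h, Set.ncard_univ, Nat.card_eq_fintype_card,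
      Fintype.card_fin]
  have h2 : i ∈ Elt.ty '' F := by rw [h1]; trivial
  obtain ⟨e, he, hi⟩ := h2
  refine ⟨e, ⟨he, hi⟩, ?_⟩
  rintro f ⟨hf, hfi⟩
  exact flag_inj hF hf he (hfi.trans hi.symm)

lemma flag_insert {F : Set (Elt ρ)} (hF : IsFlag F) {e : Elt ρ} (he : e ∈ residue F) :
    IsFlag (insert e F) := by
  intro a ha b hb hab
  rcases ha with rfl | ha <;> rcases hb with rfl | hb
  · exact absurd rfl hab
  · exact he.2.2 b hb
  · exact (he.2.2 a ha).symm
  · exact hF a ha b hb hab

lemma ncard_insert {F : Set (Elt ρ)} (hF : IsFlag F) {e : Elt ρ} (he : e ∈ residue F) :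
    (insert e F).ncard = F.ncard + 1 :=
  Set.ncard_insert_of_notMem he.1 (flag_finite hF)

lemma flag_subset {F F' : Set (Elt ρ)} (h : F ⊆ F') (hF : IsFlag F') : IsFlag F :=
  fun a ha b hb hab => hF a (h ha) b (h hb) hab

lemma mem_residue_of {F C : Set (Elt ρ)} (hC : IsFlag C) (hFC : F ⊆ C) {e : Elt ρ} (he : e ∈ C)
    (hn : e ∉ F) : e ∈ residue F := by
  have hne : ∀ f ∈ F, e ≠ f := fun f hf h => hn (h ▸ hf)
  exact ⟨hn, fun f hf h => hne f hf (flag_inj hC he (hFC hf) h.symm),
    fun f hf => hC e he f (hFC hf) (hne f hf)⟩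

/-! ### standard chambers -/

/-- the chamber `{G_i g}` -/
def std (ρ : Fin r → G) (g : G) : Set (Elt ρ) := Set.range fun i => el ρ i g

lemma std_chamber (g : G) : IsChamber (std ρ g) := by
  constructor
  · rintro _ ⟨i, rfl⟩ _ ⟨j, rfl⟩ _
    exact ⟨g, mem_rcoset_self i g, mem_rcoset_self j g⟩
  · intro i
    refine ⟨el ρ i g, ⟨⟨i, rfl⟩, rfl⟩, ?_⟩
    rintro _ ⟨⟨j, rfl⟩, hj⟩
    have : j = i := hj
    rw [this]

lemma act_std (g h : G) : act h '' std ρ g = std ρ (g * h) := by
  have key : ∀ i, act h (el ρ i g) = el ρ i (g * h) := by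
    intro i
    have hm : g * h ∈ (act h (el ρ i g)).coset := ⟨g, mem_rcoset_self i g, rfl⟩
    exact eq_el _ hm
  ext e
  constructor
  · rintro ⟨_, ⟨i, rfl⟩, rfl⟩
    exact ⟨i, (key i).symm⟩
  · rintro ⟨i, rfl⟩
    exact ⟨_, ⟨i, rfl⟩, key i⟩

/-- the adjacent standard chamber -/
lemma el_mul {i j : Fin r} (hij : i ≠ j) (g : G) : el ρ j (ρ i * g) = el ρ j g := by
  have hm : ρ i * g ∈ (el ρ j g).coset :=
    ⟨ρ i, Subgroup.subset_closure ⟨i, hij, rfl⟩, rfl⟩
  exact (eq_el _ hm).symm

lemma notMem_par (h : IsCGroup ρ) (i : Fin r) : ρ i ∉ par ρ i := by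
  intro hi
  have h1 : ρ i ∈ Subgroup.closure (ρ '' {i}) ⊓ Subgroup.closure (ρ '' {j | j ≠ i}) :=
    ⟨Subgroup.subset_closure ⟨i, rfl, rfl⟩, hi⟩
  rw [h.inter] at h1
  have h2 : ({i} ∩ {j | j ≠ i} : Set (Fin r)) = ∅ := by
    ext j
    simp
  rw [h2, Set.image_empty, Subgroup.closure_empty, Subgroup.mem_bot] at h1
  exact h.ne_one i h1

lemma std_ne (h : IsCGroup ρ) (i : Fin r) (g : G) : std ρ (ρ i * g) ≠ std ρ g := by
  intro heq
  have h1 : el ρ i g ∈ std ρ (ρ i * g) := by
    rw [heq]
    exact ⟨i, rfl⟩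
  obtain ⟨j, hj⟩ := h1
  have hji : j = i := congrArg Elt.ty hj
  subst hji
  have h2 : rcoset ρ j (ρ j * g) = rcoset ρ j g := congrArg Elt.coset hj
  have h3 : ρ j * g ∈ rcoset ρ j g := by
    rw [← h2]
    exact mem_rcoset_self j _
  obtain ⟨a, ha, hag⟩ := h3
  have h4 : ρ j = a := mul_right_cancel hag
  exact notMem_par h j (h4 ▸ ha)

/-- **Main step.** If every residue of rank at least `2` has a preconnected incidence graph, every
flag lies in a chamber, and the geometry is thin, then a flag contained in a standard chamber is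
contained in standard chambers only. -/
lemma only_std (h : IsCGroup ρ) (thin : Thin ρ)
    (conn : ∀ F : Set (Elt ρ), IsFlag F → F.ncard + 2 ≤ r → (incGraph (residue F)).Preconnected)
    (ext : ∀ F : Set (Elt ρ), IsFlag F → ∃ C, IsChamber C ∧ F ⊆ C) :
    ∀ (n : ℕ) (F : Set (Elt ρ)), IsFlag F → F.ncard + n = r →
      (∃ g, F ⊆ std ρ g) → ∀ D, IsChamber D → F ⊆ D → ∃ g, D = std ρ g := by
  intro n
  induction n with
  | zero =>
    rintro F hF hn ⟨g, hg⟩ D hD hFD
    have h1 : F = D := by
      apply Set.eq_of_subset_of_ncard_le hFD _ (flag_finite hD.1)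
      rw [chamber_ncard hD]
      omega
    have h2 : F = std ρ g := by
      apply Set.eq_of_subset_of_ncard_le hg _ (flag_finite (std_chamber g).1)
      rw [chamber_ncard (std_chamber g)]
      omega
    exact ⟨g, h1 ▸ h2⟩
  | succ n ih =>
    rintro F hF hn ⟨g, hg⟩ D hD hFD
    rcases Nat.eq_zero_or_pos n with rfl | hpos
    · -- thinness
      have h2 := thin F hF (by omega)
      -- the missing type
      obtain ⟨i, hi⟩ : ∃ i, ∀ f ∈ F, f.ty ≠ i := by
        by_contra hcon
        push Not at hcon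
        have h3 : Elt.ty '' F = Set.univ := by
          rw [Set.eq_univ_iff_forall]
          intro i
          obtain ⟨f, hf, hfi⟩ := hcon i
          exact ⟨f, hf, hfi⟩
        have h4 := Set.InjOn.ncard_image (flag_injOn hF)
        rw [h3, Set.ncard_univ, Nat.card_eq_fintype_card, Fintype.card_fin] at h4
        omega
      have h3 : F ⊆ std ρ (ρ i * g) := by
        intro f hf
        obtain ⟨j, rfl⟩ := hg hf
        exact ⟨j, el_mul (fun hij => hi _ hf hij.symm) g⟩
      rw [Set.ncard_eq_two] at h2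
      obtain ⟨A, B, hAB, hset⟩ := h2
      have mem : ∀ C, IsChamber C → F ⊆ C → C = A ∨ C = B := by
        intro C h1 h2
        have : C ∈ ({A, B} : Set (Set (Elt ρ))) := by
          rw [← hset]
          exact ⟨h1, h2⟩
        exact this
      have m1 := mem _ (std_chamber g) hg
      have m2 := mem _ (std_chamber (ρ i * g)) h3
      have m3 := mem _ hD hFD
      have hne := std_ne h i g
      rcases m1 with m1 | m1 <;> rcases m2 with m2 | m2
      · exact absurd (m2.trans m1.symm) hne
      · rcases m3 with m3 | m3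
        · exact ⟨_, m3.trans m1.symm⟩
        · exact ⟨_, m3.trans m2.symm⟩
      · rcases m3 with m3 | m3
        · exact ⟨_, m3.trans m2.symm⟩
        · exact ⟨_, m3.trans m1.symm⟩
      · exact absurd (m2.trans m1.symm) hne
    · -- residual connectedness
      have pick : ∀ C, IsChamber C → F ⊆ C → ∃ x ∈ C, x ∈ residue F := by
        intro C hC hFC
        by_contra hcon
        push Not at hcon
        have h3 : C ⊆ F := by
          intro x hx
          by_contra hxF
          exact hcon x hx (mem_residue_of hC.1 hFC hx hxF)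
        have h4 := Set.ncard_le_ncard h3 (flag_finite hF)
        rw [chamber_ncard hC] at h4
        omega
      obtain ⟨x, hxC, hx⟩ := pick _ (std_chamber g) hg
      obtain ⟨y, hyD, hy⟩ := pick _ hD hFD
      -- the property propagated along walks
      have step : ∀ a b : residue F, (incGraph (residue F)).Walk a b →
          (∃ g, insert a.1 F ⊆ std ρ g) → ∃ g, insert b.1 F ⊆ std ρ g := by
        intro a b w
        induction w with
        | nil => exact id
        | @cons a c b hadj w ihw =>
          intro hstd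
          apply ihw
          obtain ⟨hne, hinc⟩ := hadj
          have hFa := flag_insert hF a.2
          have hc : c.1 ∈ residue (insert a.1 F) := by
            refine ⟨?_, ?_, ?_⟩
            · rintro (h1 | h1)
              · exact hne (Subtype.ext h1.symm)
              · exact c.2.1 h1
            · rintro f (rfl | hf) hty
              · exact hne (Subtype.ext (inc_eq hinc hty))
              · exact c.2.2.1 f hf hty
            · rintro f (rfl | hf)
              · exact hinc.symm
              · exact c.2.2.2 f hf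
          obtain ⟨E, hE, hFE⟩ := ext _ (flag_insert hFa hc)
          have hsub : insert a.1 F ⊆ E := (Set.subset_insert _ _).trans hFE
          obtain ⟨g', hg'⟩ := ih (insert a.1 F) hFa (by rw [ncard_insert hF a.2]; omega) hstd E hE
            hsub
          refine ⟨g', ?_⟩
          rw [← hg']
          intro e he
          apply hFE
          rcases he with rfl | he
          · exact Or.inl rfl
          · exact Or.inr (Or.inr he)
      obtain ⟨w⟩ := conn F hF (by omega) ⟨x, hx⟩ ⟨y, hy⟩
      have h5 := step _ _ w ⟨g, Set.insert_subset hxC hg⟩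
      exact ih (insert y F) (flag_insert hF hy) (by rw [ncard_insert hF hy]; omega) h5 D hD
        (Set.insert_subset hyD hFD)

lemma flagTransitive_of (h : IsCGroup ρ) (thin : Thin ρ)
    (conn : ∀ F : Set (Elt ρ), IsFlag F → F.ncard + 2 ≤ r → (incGraph (residue F)).Preconnected)
    (ext : ∀ F : Set (Elt ρ), IsFlag F → ∃ C, IsChamber C ∧ F ⊆ C) : FlagTransitive ρ := by
  have all : ∀ D : Set (Elt ρ), IsChamber D → ∃ g, D = std ρ g := fun D hD =>
    only_std h thin conn ext r ∅ (fun e he => absurd he (Set.notMem_empty e))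
      (by rw [Set.ncard_empty, zero_add]) ⟨1, Set.empty_subset _⟩ D hD (Set.empty_subset _)
  intro C D hC hD
  obtain ⟨a, rfl⟩ := all C hC
  obtain ⟨b, rfl⟩ := all D hD
  exact ⟨a⁻¹ * b, by rw [act_std, mul_inv_cancel_left]⟩

/-- If all residues of flags which are not chambers are nonempty, every flag lies in a chamber. -/
lemma extend_of (hne : ∀ F : Set (Elt ρ), IsFlag F → F.ncard < r → (residue F).Nonempty) :
    ∀ (n : ℕ) (F : Set (Elt ρ)), IsFlag F → F.ncard + n = r → ∃ C, IsChamber C ∧ F ⊆ C := by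
  intro n
  induction n with
  | zero =>
    intro F hF hn
    exact ⟨F, chamber_of_ncard hF hn, subset_rfl⟩
  | succ n ih =>
    intro F hF hn
    obtain ⟨e, he⟩ := hne F hF (by omega)
    obtain ⟨C, hC, hFC⟩ := ih (insert e F) (flag_insert hF he) (by rw [ncard_insert hF he]; omega)
    exact ⟨C, hC, (Set.subset_insert _ _).trans hFC⟩

/-- Flags with at most two elements always lie in a standard chamber. -/
lemma small_std (F : Set (Elt ρ)) (hF : IsFlag F) (h2 : F.ncard ≤ 2) : ∃ g, F ⊆ std ρ g := by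
  have hfin := flag_finite hF
  have memstd : ∀ (e : Elt ρ) (x : G), x ∈ e.coset → e ∈ std ρ x := fun e x hx =>
    ⟨e.ty, (eq_el e hx).symm⟩
  rcases Nat.lt_or_ge F.ncard 1 with h | h
  · have : F = ∅ := (Set.ncard_eq_zero hfin).mp (by omega)
    exact ⟨1, this ▸ Set.empty_subset _⟩
  · rcases Nat.lt_or_ge F.ncard 2 with h' | h'
    · obtain ⟨e, rfl⟩ := Set.ncard_eq_one.mp (show F.ncard = 1 by omega)
      obtain ⟨g, hg⟩ := e.isCoset
      refine ⟨g, Set.singleton_subset_iff.mpr (memstd e g ?_)⟩
      rw [hg]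
      exact mem_rcoset_self _ _
    · obtain ⟨e, f, hef, rfl⟩ := Set.ncard_eq_two.mp (show F.ncard = 2 by omega)
      obtain ⟨x, hx, hy⟩ := hF e (Or.inl rfl) f (Or.inr rfl) hef
      exact ⟨x, Set.insert_subset (memstd e x hx) (Set.singleton_subset_iff.mpr (memstd f x hy))⟩

/-- **Thin and residually connected coset geometries of C-groups are flag-transitive.** The first
part is for every rank. The second part shows that in rank `4` this even holds if the empty graph
is regarded as connected in the definition of residual connectedness. -/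
theorem result :
    (∀ (G : Type*) [Group G] (r : ℕ) (ρ : Fin r → G), IsCGroup ρ → Thin ρ →
      ResiduallyConnected ρ → FlagTransitive ρ) ∧
    (∀ (G : Type*) [Group G] (ρ : Fin 4 → G), IsCGroup ρ → Thin ρ →
      WeaklyResiduallyConnected ρ → FlagTransitive ρ) := by
  constructor
  · intro G _ r ρ h thin rc
    apply flagTransitive_of h thin (fun F hF h2 => (rc.1 F hF h2).preconnected)
    intro F hF
    refine extend_of ?_ (r - F.ncard) F hF (by have := flag_ncard_le hF; omega)
    intro F hF hlt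
    rcases Nat.lt_or_ge (F.ncard + 1) r with h1 | h1
    · obtain ⟨e⟩ := (rc.1 F hF (by omega)).nonempty
      exact ⟨e.1, e.2⟩
    · exact rc.2 F hF (by omega)
  · intro G _ ρ h thin rc
    apply flagTransitive_of h thin rc.1
    intro F hF
    refine extend_of ?_ (4 - F.ncard) F hF (by have := flag_ncard_le hF; omega)
    intro F hF hlt
    rcases Nat.lt_or_ge F.ncard 3 with h1 | h1
    · obtain ⟨g, hg⟩ := small_std F hF (by omega)
      have h3 : ¬ std ρ g ⊆ F := by
        intro hsub
        have := Set.ncard_le_ncard hsub (flag_finite hF)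
        rw [chamber_ncard (std_chamber g)] at this
        omega
      obtain ⟨e, he, heF⟩ := Set.not_subset.mp h3
      exact ⟨e, mem_residue_of (std_chamber g).1 hg he heF⟩
    · exact rc.2 F hF (by omega)

end Pool.Agent.Results.MP_0d307c_co.ThinIsFlagTransitive
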